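import Mathlib
import Pool.Agent.W743.GV.Stm

open Set
open scoped ContDiff

namespace Pool.Agent.W490.GV

open Pool.Agent.W743.GV

theorem t_POT (hID : S_ID) : S_POT := by
  intro d b f D
  have hJo : IsOpen (J d) := isOpen_Ioo
  have hJc : Convex ℝ (J d) := convex_Ioo _ _
  have hSo : IsOpen (J d ×ˢ J d) := hJo.prod hJo
  have hSc : Convex ℝ (J d ×ˢ J d) := hJc.prod hJc
  have spos : ∀ s ∈ J d, 0 < s := by
    intro s hs
    have h1 := hs.1
    have h2 := D.hd1
    linarith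
  -- smoothness
  have hb : ContDiffOn ℝ ∞ (fun z : ℝ × ℝ => b z.2) (J d ×ˢ J d) :=
    D.cb.comp contDiffOn_snd (fun z hz => hz.2)
  have hf : ContDiffOn ℝ ∞ (fun z : ℝ × ℝ => f z.2) (J d ×ˢ J d) :=
    D.cf.comp contDiffOn_snd (fun z hz => hz.2)
  have hM : ContDiffOn ℝ ∞ (fun z : ℝ × ℝ => MM b f z.1 z.2) (J d ×ˢ J d) := by
    unfold MM
    exact (contDiffOn_fst.mul ((contDiffOn_const.mul contDiffOn_snd).sub
      ((hb.sub contDiffOn_fst).pow 2))).sub ((hf.sub (hb.sub contDiffOn_fst)).pow 2)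
  have hQ : ContDiffOn ℝ ∞ (fun z : ℝ × ℝ => QQ b f z.1 z.2) (J d ×ˢ J d) := by
    unfold QQ
    exact (contDiffOn_fst.mul (hb.sub contDiffOn_fst)).sub (hf.sub (hb.sub contDiffOn_fst))
  have hR : ContDiffOn ℝ ∞ (fun z : ℝ × ℝ => √(MM b f z.1 z.2)) (J d ×ˢ J d) :=
    hM.sqrt (fun z hz => (D.Mpos z.1 hz.1 z.2 hz.2).ne')
  have Rpos : ∀ z ∈ J d ×ˢ J d, 0 < √(MM b f z.1 z.2) := fun z hz =>
    Real.sqrt_pos.mpr (D.Mpos z.1 hz.1 z.2 hz.2)
  set A : ℝ × ℝ → ℝ := fun z => QQ b f z.1 z.2 / (2 * z.1 * √(MM b f z.1 z.2)) with hAdef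
  set B : ℝ × ℝ → ℝ := fun z => 1 / (2 * √(MM b f z.1 z.2)) with hBdef
  have cA : ContDiffOn ℝ ∞ A (J d ×ˢ J d) := by
    refine hQ.div ((contDiffOn_const.mul contDiffOn_fst).mul hR) (fun z hz => ?_)
    have h1 := spos z.1 hz.1
    have h2 := Rpos z hz
    positivity
  have cB : ContDiffOn ℝ ∞ B (J d ×ˢ J d) := by
    refine contDiffOn_const.div (contDiffOn_const.mul hR) (fun z hz => ?_)
    have h2 := Rpos z hz
    positivity
  set om : ℝ × ℝ → (ℝ × ℝ →L[ℝ] ℝ) := fun z =>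
    A z • ContinuousLinearMap.fst ℝ ℝ ℝ + B z • ContinuousLinearMap.snd ℝ ℝ ℝ with homdef
  have com : ContDiffOn ℝ ∞ om (J d ×ˢ J d) :=
    (cA.smul contDiffOn_const).add (cB.smul contDiffOn_const)
  have dA : ∀ z ∈ J d ×ˢ J d, HasFDerivAt A (fderiv ℝ A z) z := fun z hz =>
    ((cA.contDiffAt (hSo.mem_nhds hz)).differentiableAt (by simp)).hasFDerivAt
  have dB : ∀ z ∈ J d ×ˢ J d, HasFDerivAt B (fderiv ℝ B z) z := fun z hz =>
    ((cB.contDiffAt (hSo.mem_nhds hz)).differentiableAt (by simp)).hasFDerivAt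
  -- the closedness
  have key : ∀ z ∈ J d ×ˢ J d, fderiv ℝ A z (0, 1) = fderiv ℝ B z (1, 0) := by
    rintro ⟨s, P⟩ ⟨hs, hP⟩
    simp only at hs hP
    have hz : ((s, P) : ℝ × ℝ) ∈ J d ×ˢ J d := ⟨hs, hP⟩
    have c1 : HasDerivAt (fun t : ℝ => ((s, t) : ℝ × ℝ)) ((0 : ℝ), (1 : ℝ)) P :=
      (hasDerivAt_const P s).prodMk (hasDerivAt_id P)
    have c2 : HasDerivAt (fun t : ℝ => ((t, P) : ℝ × ℝ)) ((1 : ℝ), (0 : ℝ)) s :=
      (hasDerivAt_id s).prodMk (hasDerivAt_const s P)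
    have h1 : HasDerivAt (fun t => A (s, t)) (fderiv ℝ A (s, P) (0, 1)) P :=
      HasFDerivAt.comp_hasDerivAt P (dA (s, P) hz) c1
    have h2 : HasDerivAt (fun t => B (t, P)) (fderiv ℝ B (s, P) (1, 0)) s := by
      have k := HasFDerivAt.comp_hasDerivAt (l := B) (f := fun t : ℝ => ((t, P) : ℝ × ℝ)) s
        (dB (s, P) hz) c2
      exact k
    have hdb : HasDerivAt b (deriv b P) P :=
      ((D.cb.contDiffAt (hJo.mem_nhds hP)).differentiableAt (by simp)).hasDerivAt
    have hdf : HasDerivAt f (deriv f P) P :=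
      ((D.cf.contDiffAt (hJo.mem_nhds hP)).differentiableAt (by simp)).hasDerivAt
    have hMP : HasDerivAt (fun t => MM b f s t) (MP b f s P) P := by
      unfold MM MP
      have k := ((((hasDerivAt_id P).const_mul (3 : ℝ)).sub ((hdb.sub_const s).pow 2)).const_mul
        s).sub ((hdf.sub (hdb.sub_const s)).pow 2)
      refine k.congr_deriv ?_
      simp
    have hMS : HasDerivAt (fun t => MM b f t P) (MS b f s P) s := by
      unfold MM MS
      have k0 := (hasDerivAt_id s).const_sub (b P)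
      have k := ((hasDerivAt_id s).mul ((k0.pow 2).const_sub (3 * P))).sub
        ((k0.const_sub (f P)).pow 2)
      refine k.congr_deriv ?_
      simp
      ring
    have hQP : HasDerivAt (fun t => QQ b f s t) (QP b f s P) P := by
      unfold QQ QP
      exact ((hdb.sub_const s).const_mul s).sub (hdf.sub (hdb.sub_const s))
    have M0 := D.Mpos s hs P hP
    have R0 := Rpos (s, P) hz
    simp only at R0
    have s0 := spos s hs
    have hRP := hMP.sqrt M0.ne'
    have hRS := hMS.sqrt M0.ne'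
    have h1' : HasDerivAt (fun t => A (s, t)) _ P :=
      hQP.div (hRP.const_mul (2 * s)) (by positivity)
    have h2' : HasDerivAt (fun t => B (t, P)) _ s :=
      (hasDerivAt_const s (1 : ℝ)).div (hRS.const_mul 2) (by positivity)
    rw [h1.unique h1', h2.unique h2']
    have hid := hID d b f D s hs P hP
    have hsq : √(MM b f s P) ^ 2 = MM b f s P := Real.sq_sqrt M0.le
    generalize √(MM b f s P) = r at *
    rw [← hsq] at hid
    field_simp
    linear_combination hid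
  have dom : ∀ z ∈ J d ×ˢ J d, HasFDerivAt om
      ((fderiv ℝ A z).smulRight (ContinuousLinearMap.fst ℝ ℝ ℝ)
        + (fderiv ℝ B z).smulRight (ContinuousLinearMap.snd ℝ ℝ ℝ)) z := fun z hz =>
    HasFDerivAt.add (HasFDerivAt.smul_const (dA z hz) (ContinuousLinearMap.fst ℝ ℝ ℝ))
      (HasFDerivAt.smul_const (dB z hz) (ContinuousLinearMap.snd ℝ ℝ ℝ))
  have lin : ∀ (L : ℝ × ℝ →L[ℝ] ℝ) (x : ℝ × ℝ), L x = x.1 * L (1, 0) + x.2 * L (0, 1) := by
    intro L x
    have hx : x = x.1 • ((1 : ℝ), (0 : ℝ)) + x.2 • ((0 : ℝ), (1 : ℝ)) := by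
      ext <;> simp
    conv_lhs => rw [hx]
    rw [map_add, map_smul, map_smul]
    rfl
  obtain ⟨Z, hZ⟩ := hSc.exists_forall_hasFDerivAt_of_fderiv_symmetric hSo
    (com.differentiableOn (by simp)) (by
      intro z hz x y
      rw [(dom z hz).fderiv]
      simp only [add_apply, ContinuousLinearMap.smulRight_apply,
        smul_apply, ContinuousLinearMap.coe_fst', ContinuousLinearMap.coe_snd',
        smul_eq_mul]
      rw [lin (fderiv ℝ A z) x, lin (fderiv ℝ A z) y, lin (fderiv ℝ B z) x,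
        lin (fderiv ℝ B z) y]
      linear_combination (x.2 * y.1 - x.1 * y.2) * key z hz)
  refine ⟨Z, ?_, fun z hz => hZ z hz⟩
  rw [contDiffOn_infty_iff_fderiv_of_isOpen hSo]
  refine ⟨fun z hz => (hZ z hz).differentiableAt.differentiableWithinAt, ?_⟩
  exact com.congr (fun z hz => (hZ z hz).fderiv)

end Pool.Agent.W490.GV
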